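import Pool.Agent.helper45.SGC.Spec

set_option autoImplicit false

namespace Pool.Agent.SGC

open Finset Pool.Agent.helper38.Neg Pool.Agent.helper55.NT

theorem FLA_z2 (a : ZMod 2) : a + a = 0 := by
  revert a; decide

theorem FLA_zero {t : ℕ} (c : Cl t) : flc 0 c = c := by
  unfold flc
  refine Prod.ext rfl ?_
  funext k
  simp

theorem FLA_add {t : ℕ} (γ δ : Sg t) (c : Cl t) : flc (γ + δ) c = flc γ (flc δ c) := by
  unfold flc
  refine Prod.ext rfl ?_
  funext k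
  simp only [Pi.add_apply]
  ring

theorem FLA_flz {n : ℕ} (p : Fin n) : fl (0 : Sg (tv n)) p = p := by
  by_cases h : ∃ c : Cl (tv n), pos c = p
  · obtain ⟨c, rfl⟩ := h
    rw [fl_pos, FLA_zero]
  · push Not at h
    exact fl_of_not _ _ h

theorem FLA_fla {n : ℕ} (γ δ : Sg (tv n)) (p : Fin n) : fl (γ + δ) p = fl γ (fl δ p) := by
  by_cases h : ∃ c : Cl (tv n), pos c = p
  · obtain ⟨c, rfl⟩ := h
    rw [fl_pos, fl_pos, fl_pos, FLA_add]
  · push Not at h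
    rw [fl_of_not _ _ h, fl_of_not _ _ h, fl_of_not _ _ h]

theorem FLA_self {t : ℕ} (γ : Sg t) : γ + γ = 0 := by
  funext i
  simp only [Pi.add_apply, Pi.zero_apply]
  exact FLA_z2 _

theorem FLA_flc2 {t : ℕ} (γ : Sg t) (c : Cl t) : flc γ (flc γ c) = c := by
  rw [← FLA_add, FLA_self, FLA_zero]

theorem FLA_fl2 {n : ℕ} (γ : Sg (tv n)) (p : Fin n) : fl γ (fl γ p) = p := by
  rw [← FLA_fla, FLA_self, FLA_flz]

/-- One direction for 3SAT. -/
theorem FLA_sat {n : ℕ} (γ : Sg (tv n)) (x : Fin n → Bool) (h : SAT3 n x) : SAT3 n (x ∘ fl γ) := by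
  obtain ⟨α, hα⟩ := h
  refine ⟨α + γ, ?_⟩
  intro c hc
  simp only [Function.comp_apply, fl_pos] at hc
  obtain ⟨k, hk⟩ := hα _ hc
  refine ⟨k, ?_⟩
  simp only [flc] at hk
  simp only [Pi.add_apply]
  rw [hk, add_assoc, FLA_z2, add_zero]

theorem FLA_xor {n : ℕ} (γ : Sg (tv n)) (x : Fin n → Bool) (h : XOR3 n x) : XOR3 n (x ∘ fl γ) := by
  obtain ⟨α, hα⟩ := h
  refine ⟨α + γ, ?_⟩
  intro c hc
  simp only [Function.comp_apply, fl_pos] at hc
  have hk := hα _ hc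
  simp only [flc] at hk
  simp only [Pi.add_apply]
  rw [Finset.sum_add_distrib, hk, ← Finset.sum_add_distrib]
  refine Finset.sum_congr rfl fun k _ => ?_
  rw [add_assoc, FLA_z2, add_zero]

theorem FLA_comp2 {n : ℕ} (γ : Sg (tv n)) (x : Fin n → Bool) : (x ∘ fl γ) ∘ fl γ = x := by
  funext p
  simp only [Function.comp_apply]
  rw [FLA_fl2]

theorem FLA : FLA_stmt := by
  intro n
  refine ⟨FLA_flz, FLA_fla, FLA_fl2, ?_⟩
  intro V
  refine ⟨?_, ?_⟩
  · intro γ _ x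
    refine ⟨fun h => ?_, fun h => FLA_sat γ x h⟩
    have h1 := FLA_sat γ _ h
    rwa [FLA_comp2] at h1
  · intro γ _ x
    refine ⟨fun h => ?_, fun h => FLA_xor γ x h⟩
    have h1 := FLA_xor γ _ h
    rwa [FLA_comp2] at h1

end Pool.Agent.SGC
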